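import Mathlib
import Pool.Agent.Helper872.Iso.Magic
set_option autoImplicit false
open scoped ENNReal CStarAlgebra
open Pool.Agent.Helper872.Iso

namespace Pool.Agent.Results.MP_3b70de_al.MagicSquareNoEmbedding

/-- The relators of the solution group of the binary linear system `M x = b`: generators `g_i`
(`some i`) and `J` (`none`); `J² = g_i² = e`, `J` commutes with every `g_i`, `g_i` commutes with
`g_j` if they occur in a common equation, and `∏_i g_i^{M_{ki}} = J^{b_k}` (product in increasing
order of `i`) for every `k`. -/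
def solRels {m n : ℕ} (M : Matrix (Fin m) (Fin n) (ZMod 2)) (b : Fin m → ZMod 2) :
    Set (FreeGroup (Option (Fin n))) :=
  {r | r = FreeGroup.of none ^ 2 ∨
    (∃ i, r = FreeGroup.of (some i) ^ 2) ∨
    (∃ i, r = FreeGroup.of none * FreeGroup.of (some i) * (FreeGroup.of none)⁻¹ *
      (FreeGroup.of (some i))⁻¹) ∨
    (∃ i j k, M k i = 1 ∧ M k j = 1 ∧ r = FreeGroup.of (some i) * FreeGroup.of (some j) *
      (FreeGroup.of (some i))⁻¹ * (FreeGroup.of (some j))⁻¹) ∨
    (∃ k, r = (List.ofFn fun i => FreeGroup.of (some i) ^ (M k i).val).prod *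
      (FreeGroup.of none ^ (b k).val)⁻¹)}

/-- The solution group `Γ(M,b)`. -/
abbrev SolutionGroup {m n : ℕ} (M : Matrix (Fin m) (Fin n) (ZMod 2)) (b : Fin m → ZMod 2) : Type :=
  PresentedGroup (solRels M b)

/-- Q1 has a negative answer.  The first two parts say that the isomorphism game algebras and the
full group C*-algebras exist.  The third part: there are finite graphs `G`, `H` (the two 24-vertex
graphs of the magic square system) with `𝒜(G,H) ≠ 0` such that for no binary linear system `M x = b`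
there is a unital injective `*`-homomorphism `𝒜(G,H) → C*(Γ(M,b))`; there is not even a unital
`*`-homomorphism. -/
theorem result :
    (∀ (V W : Type) [Fintype V] [Fintype W] (G : SimpleGraph V) (H : SimpleGraph W),
      ∃ (A : Type 1) (_ : CStarAlgebra A) (p : V → W → A), IsGameAlgebra G H A p) ∧
    (∀ (Γ : Type) [Group Γ],
      ∃ (A : Type 1) (_ : CStarAlgebra A) (u : Γ →* unitary A), IsGroupCStar Γ A u) ∧
    ∃ (V W : Type) (_ : Fintype V) (_ : Fintype W) (G : SimpleGraph V) (H : SimpleGraph W),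
      ∀ (A : Type 1) [CStarAlgebra A] (p : V → W → A), IsGameAlgebra G H A p →
        Nontrivial A ∧
        ∀ (m n : ℕ) (M : Matrix (Fin m) (Fin n) (ZMod 2)) (b : Fin m → ZMod 2)
          (C : Type 1) [CStarAlgebra C] (u : SolutionGroup M b →* unitary C),
          IsGroupCStar (SolutionGroup M b) C u →
            IsEmpty (A →⋆ₐ[ℂ] C) ∧ ¬ ∃ φ : A →⋆ₐ[ℂ] C, Function.Injective φ := by
  refine ⟨fun V W _ _ G H => exists_gameAlgebra G H, fun Γ _ => exists_groupCStar Γ, ?_⟩
  refine ⟨Fin 6 × Fin 4, Fin 6 × Fin 4, inferInstance, inferInstance, msGraph true, msGraph false,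
    fun A _ p hA => ⟨game_nontrivial A p hA, fun m n M b C _ u hC => ?_⟩⟩
  obtain ⟨χ, -⟩ := hC.2 ℂ 1
  have h : IsEmpty (A →⋆ₐ[ℂ] C) := ⟨fun φ => no_hom p hA.1 (χ.comp φ)⟩
  exact ⟨h, fun ⟨φ, _⟩ => h.false φ⟩

end Pool.Agent.Results.MP_3b70de_al.MagicSquareNoEmbedding
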